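import Pool.Agent.Y462.SS.Main
import Pool.Agent.Y812.SS.Wr
import Pool.Agent.Y331.SS.Lim
import Pool.Agent.Y179.SS.Free
import Pool.Agent.Y430.SS.Lf
import Pool.Agent.Y708.SS.Aut

/-!
# Groups generated by bounded automorphisms of rooted trees are Farrell–Jones groups

`C` is any class of groups with the closure properties `Closed C`, all of which are known for the
class of the groups that satisfy the Full Farrell–Jones Conjecture.
-/

set_option autoImplicit false

namespace Pool.Agent.Results.MP_490288_al.BoundedAutomata

open Pool.Agent.Y462.SS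

/-- Let `C` be a class of groups with the closure properties `Closed C`. Every group `G` of
automorphisms of a regular rooted tree `X^*`, `X` finite, which is generated by bounded
automorphisms is in `C`. This includes all groups generated by bounded automata. -/
theorem result (C : ∀ (G : Type) [Group G], Prop) (hC : Closed C) (X : Type) (hX : Finite X)
    (G : Type) [Group G] (f : G →* Equiv.Perm (List X)) (hf : Function.Injective f)
    (S : Set G) (hS : Subgroup.closure S = ⊤) (hT : ∀ s ∈ S, IsTree (f s))
    (hB : ∀ s ∈ S, IsBdd (f s) ∨ ((Sections (f s)).Finite ∧ BddActivity (f s))) : C G := by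
  refine bounded_closed Pool.Agent.Y812.SS.t_wr Pool.Agent.Y430.SS.t_lf
    Pool.Agent.Y430.SS.t_pow Pool.Agent.Y179.SS.t_free
    (Pool.Agent.Y331.SS.t_lim Pool.Agent.Y812.SS.t_wr) Pool.Agent.Y430.SS.t_union C hC
    X hX G f hf S hS hT ?_
  intro s hs
  rcases hB s hs with h | ⟨h, h'⟩
  · exact h
  · exact Pool.Agent.Y708.SS.t_aut X hX (f s) (hT s hs) h h'

end Pool.Agent.Results.MP_490288_al.BoundedAutomata
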