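import Pool.Agent.Y69.TP.KFinP

/-!
# Rational injectivity of `colim K₁(k[H]) → K₁(k[G])` for fields of positive characteristic

For every group `G` and every field `k` of characteristic `p > 0` the canonical map
`colim K₁(k[H]) → K₁(k[G])`, the colimit being over the finite subgroups `H` of `G` (and the maps
given by conjugation with elements of `G`), is injective after tensoring with the rational numbers.
There is no hypothesis on `G`.

The definitions are in `Pool.Agent.Y69.WhDef` (`K1`) and `Pool.Agent.Y69.TK.KDef` (`ColimK1`,
`assembly`).
-/

/-- For every group `G` and every field `k` of characteristic `p > 0`, an element of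
`colim K₁(k[H])` (colimit over the finite subgroups `H` of `G`) whose image in `K₁(k[G])` has finite
order has finite order. -/
theorem Pool.Agent.Results.MP_490288_al.ColimPositiveCharacteristic.result
    (k G : Type) [Field k] (p : ℕ) (hp : p.Prime) [CharP k p] [Group G]
    (x : Pool.Agent.Y69.FJK.ColimK1 k G) (n : ℕ) (hn : 0 < n)
    (hx : n • Pool.Agent.Y69.FJK.assembly k G x = 0) :
    ∃ l : ℕ, 0 < l ∧ l • x = 0 :=
  Pool.Agent.Y69.FJK.mainP k G p hp x n hn hx
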