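import Pool.Agent.Y72.Fj.Lin

/-!
# Surjectivity of the assembly map for Whitehead groups, seen in finite quotients

Let `Γ` be a group with a homomorphism `φ` to `GL_N(K)`, `K` a field, such that one of the
following holds:

* `φ` is injective and the characteristic of `K` is positive (a linear group in positive
  characteristic);
* `φ` is injective and for every finitely generated subgroup `H` of `Γ` and every `u` in `H` of
  infinite order with `φ(u)` unipotent the centraliser of `u` in `H` has a homomorphism to `ℤ`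
  which does not vanish at `u`;
* for every finitely generated subgroup `H` of `Γ` and every `u` in `H` of infinite order the
  centraliser of `u` in `H` has a homomorphism to `ℤ` which does not vanish at `u` (no condition
  on `φ`).

`Γ` may have torsion.  Let `U` be a normal subgroup of finite index and `A` an invertible matrix
over `ℤΓ`.  Then there are `k > 0`, elements `γ₁, …, γ_r` of finite order in `Γ` and units `u_i` of
`ℤ[C_i]`, `C_i` the finite cyclic group generated by `γ_i`, such that for every representation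
`ρ` of `Γ` over a field of characteristic zero which is trivial on `U`

`det ρ(A) ^ k = ∏ det ρ(u_i)`.

So the image of `K₁(ℤΓ)` in `K₁(ℤ[Γ/U]) ⊗ ℚ` is generated by the images of the groups
`K₁(ℤ[C])`, `C` a finite cyclic subgroup of `Γ`.
-/

set_option autoImplicit false

namespace Pool.Agent.Results.MP_490288_al.FiniteQuotients

open Pool.Agent.Y72.Log Pool.Agent.Y72.Fj

universe u v w

theorem result {Γ : Type u} [Group Γ] {K : Type v} [Field K] {N : ℕ} (φ : Γ →* GL (Fin N) K)
    (h : (Function.Injective φ ∧ ∃ p : ℕ, p.Prime ∧ CharP K p) ∨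
      (Function.Injective φ ∧ ∀ H : Subgroup Γ, H.FG → ∀ g ∈ H, ¬ IsOfFinOrder g →
        IsNilpotent ((φ g).val - 1) →
        ∃ f : Γ → ℤ, (∀ x ∈ H, ∀ y ∈ H, x * g = g * x → y * g = g * y →
          f (x * y) = f x + f y) ∧ f g ≠ 0) ∨
      (∀ H : Subgroup Γ, H.FG → ∀ g ∈ H, ¬ IsOfFinOrder g →
        ∃ f : Γ → ℤ, (∀ x ∈ H, ∀ y ∈ H, x * g = g * x → y * g = g * y →
          f (x * y) = f x + f y) ∧ f g ≠ 0))
    (U : Subgroup Γ) [U.Normal] [U.FiniteIndex]
    {n : ℕ} (A : (Matrix (Fin n) (Fin n) (MonoidAlgebra ℤ Γ))ˣ) :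
    ∃ k : ℕ, 0 < k ∧ ∃ (r : ℕ) (γ : Fin r → Γ)
      (u : ∀ i, (MonoidAlgebra ℤ (Subgroup.zpowers (γ i)))ˣ), (∀ i, IsOfFinOrder (γ i)) ∧
      ∀ (L : Type w) [Field L] [CharZero L] (d : ℕ) (ρ : Γ →* GL (Fin d) L),
        (∀ g ∈ U, ρ g = 1) →
        (Matrix.of fun x y : Fin n × Fin d =>
          (A.val x.1 y.1).coeff.sum fun g a => (a : L) * (ρ g).val x.2 y.2).det ^ k =
        ∏ i, (Matrix.of fun x y : Fin d =>
          (u i).val.coeff.sum fun c a => (a : L) * (ρ c.1).val x y).det := by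
  classical
  obtain ⟨H, hH, hS⟩ := exists_fg A
  obtain ⟨A', hA'⟩ := exists_sub A H hS
  have hfin : ∀ c : H, ¬ IsOfFinOrder c → ¬ IsOfFinOrder c.1 := by
    intro c hc h1
    apply hc
    obtain ⟨m, hm, h2⟩ := isOfFinOrder_iff_pow_eq_one.1 h1
    exact isOfFinOrder_iff_pow_eq_one.2 ⟨m, hm, Subtype.ext h2⟩
  have hconv : ∀ c : H, (∃ f : Γ → ℤ, (∀ x ∈ H, ∀ y ∈ H, x * c.1 = c.1 * x →
      y * c.1 = c.1 * y → f (x * y) = f x + f y) ∧ f c.1 ≠ 0) →
      ∃ f : H → ℤ, AddOn c f ∧ f c ≠ 0 := by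
    rintro c ⟨f, hf, hf0⟩
    refine ⟨fun x => f x.1, ?_, hf0⟩
    intro x y hx hy
    exact hf x.1 x.2 y.1 y.2 (congrArg Subtype.val hx) (congrArg Subtype.val hy)
  have hb : CenI H := by
    rcases h with ⟨hφ, p, hp, hK⟩ | ⟨_, h1⟩ | h1
    · haveI : Fact p.Prime := ⟨hp⟩
      apply cenI_linear φ H hH
      intro c hc hn
      exact absurd (unip_fin (p := p) φ hφ c.1 hn) (hfin c hc)
    · apply cenI_linear φ H hH
      intro c hc hn
      exact hconv c (h1 H hH c.1 c.2 (hfin c hc) hn)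
    · intro c hc
      exact hconv c (h1 H hH c.1 c.2 (hfin c hc))
  let V : Subgroup H := U.subgroupOf H
  haveI : V.FiniteIndex := inferInstanceAs (U.subgroupOf H).FiniteIndex
  haveI : Finite (H ⧸ V) := inferInstance
  haveI : Fintype (H ⧸ V) := Fintype.ofFinite _
  let π : H →* H ⧸ V := QuotientGroup.mk' V
  obtain ⟨k, hk, r, γ, u, hγ, hmain⟩ := core hb π (QuotientGroup.mk'_surjective V) A'
  refine ⟨k, hk, r, fun i => (γ i).1, fun i =>
    Units.map (mp (fz H.subtype (γ i))).toMonoidHom (u i), ?_, ?_⟩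
  · intro i
    obtain ⟨m, hm, h2⟩ := isOfFinOrder_iff_pow_eq_one.1 (hγ i)
    exact isOfFinOrder_iff_pow_eq_one.2 ⟨m, hm, congrArg Subtype.val h2⟩
  intro L _ _ d ρ hρ
  let ρ' : Γ →* Matrix (Fin d) (Fin d) L := (Units.coeHom _).comp ρ
  have hker : V ≤ (ρ'.comp H.subtype).ker := by
    intro x hx
    have h1 : ρ x.1 = 1 := hρ x.1 hx
    show ((ρ x.1 : GL (Fin d) L) : Matrix (Fin d) (Fin d) L) = 1
    rw [h1]
    rfl
  let σ : H ⧸ V →* Matrix (Fin d) (Fin d) L := QuotientGroup.lift V (ρ'.comp H.subtype) hker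
  have hσ : σ.comp π = ρ'.comp H.subtype := by
    ext x
    rfl
  have h1 := hmain L d σ
  rw [hσ] at h1
  have h2 : (blkR (lrG (ρ'.comp H.subtype)) A'.val) = (Matrix.of fun x y : Fin n × Fin d =>
      (A.val x.1 y.1).coeff.sum fun g a => (a : L) * (ρ g).val x.2 y.2) := by
    rw [← blkR_mpU, ← hA']
    ext1 x y
    exact lrG_apply ρ' (A.val x.1 y.1) x.2 y.2
  rw [h2] at h1
  rw [h1]
  apply Finset.prod_congr rfl
  intro i _
  congr 1
  have h3 := lrG_mp (fz H.subtype (γ i))
    (ρ'.comp (Subgroup.zpowers (H.subtype (γ i))).subtype) (u i).val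
  refine Eq.trans (h3.symm : lrG ((ρ'.comp H.subtype).comp (Subgroup.zpowers (γ i)).subtype)
    (u i).val = _) ?_
  ext1 x y
  exact lrG_apply (ρ'.comp (Subgroup.zpowers (H.subtype (γ i))).subtype) _ x y

end Pool.Agent.Results.MP_490288_al.FiniteQuotients
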