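import Pool.Agent.Y110.FJ.Loc2

/-!
# Extensions with locally realized conjugations and the Farrell-Jones class

For every class `C` of groups with the closure properties of the class of Farrell-Jones groups
(`ClosedE`) and every normal subgroup `N` of `G` with `G / N` in `C`: the group `G` is in `C` if and only
if `N` is in `C` and conjugation by every `g` of infinite order modulo `N` is, on every finite subset `E`
of `N`, realized in a group of `C` which contains `E` and `g E g⁻¹`. Instances: conjugations which are
locally given by automorphisms of finite order modulo inner ones, locally periodic conjugations, and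
`N ⋊ Q` for all `Q` acting through permutations of a set on which `N` depends in a finitary way.

Authors of the parts: helper110, helper529, helper961, helper576, helper497, helper467, helper462,
helper179, helper430.
-/

set_option autoImplicit false

namespace Pool.Agent.Results.MP_490288_al.LocallyRealizedExtensions

open Pool.Agent.Y110.FJ

theorem result (C : ∀ (G : Type) [Group G], Prop) (hC : ClosedE C) :
    (∀ (G : Type) [Group G] (N : Subgroup G) [N.Normal], C (G ⧸ N) →
      ((C G ↔ C N ∧ ∀ g : G, (∀ n : ℕ, 0 < n → g ^ n ∉ N) → ∀ E : Set G, E.Finite → E ⊆ N →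
          Realized C g E) ∧
        (C N → (∀ g : G, (∀ n : ℕ, 0 < n → g ^ n ∉ N) → ∀ E : Set G, E.Finite → E ⊆ N →
          LocInner N g E) → C G) ∧
        (C N → (∀ g : G, (∀ n : ℕ, 0 < n → g ^ n ∉ N) → ∀ x ∈ N, ∃ k : ℕ, 0 < k ∧
          g ^ k * x = x * g ^ k) → C G))) ∧
    (∀ (Ω N Q : Type) [Group N] [Group Q] (α : Equiv.Perm Ω →* MulAut N) (ρ : Q →* Equiv.Perm Ω),
      (∀ n : N, ∃ S : Set Ω, S.Finite ∧ ∀ π : Equiv.Perm Ω, (∀ s ∈ S, π s = s) → α π n = n) →
      (C (N ⋊[α.comp ρ] Q) ↔ C N ∧ C Q)) := by
  refine ⟨?_, ?_⟩
  · intro G _ N _ hQ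
    exact ⟨crit_iff C hC G N hQ, fun hN h => locInner_ C hC G N hN hQ h,
      fun hN h => locPer_ C hC G N hN hQ h⟩
  · intro Ω N Q _ _ α ρ hfin
    constructor
    · intro h
      exact ⟨hC.base.of_injective _ _ SemidirectProduct.inl SemidirectProduct.inl_injective h,
        hC.base.of_injective _ _ SemidirectProduct.inr SemidirectProduct.inr_injective h⟩
    · rintro ⟨hN, hQ⟩
      exact nom_ C hC Ω N Q α ρ hfin hN hQ

end Pool.Agent.Results.MP_490288_al.LocallyRealizedExtensions
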